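import Pool.Agent.X312.MR.Defs
import Pool.Agent.X312.FC.RankDefs
import Pool.Agent.X312.FM.GrpDefs

/-!
# Representations in functors on correspondences: definitions
-/

open CategoryTheory AlgebraicGeometry

universe u v

namespace Pool.Agent.X312.MR

open Pool.Agent.H914 Pool.Agent.H914.VarClass Pool.Agent.H914.VarClass.Obj
  Pool.Agent.H914.WeilCohomology Pool.Agent.X312.FK Pool.Agent.X312.FM Pool.Agent.X312.FC

variable {k : Type u} [Field k] {𝒱 : VarClass k} {ops : CycleOps 𝒱}
  {W : WeilCohomology.{u, v} ops}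

/-- The operators `ρ_Z(g)` on the spaces `S(Z)` are linear and commute with the correspondences
in `C`. -/
structure IsNaturalAction (C : Family W) (S : CorrData W) {G : Type v}
    (ρ : ∀ Z : 𝒱.Obj, G → S.M Z → S.M Z) : Prop where
  lin : ∀ (Z : 𝒱.Obj) (g : G), IsLinearMap W.K (ρ Z g)
  comm : ∀ {Z Z' : 𝒱.Obj} (c : W.H (Z.prod Z')), Has C c → ∀ (g : G) (x : S.M Z),
    S.act c (ρ Z g x) = ρ Z' g (S.act c x)

/-- For each idempotent correspondence `c` in `C` on a variety `Z` the dimension of the image of `c`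
on `S(Z)` is at most `b` times the rank of `c`. -/
def IsBounded (C : Family W) (S : CorrData W) (b : ℕ) : Prop :=
  ∀ (Z : 𝒱.Obj) (c : W.H (Z.prod Z)), Has C c → composite W c c = c →
    ∀ (r : ℕ) (x : Fin r → S.M Z), LinearIndependent W.K (fun i => S.act c (x i)) →
      r ≤ b * corrRank c

end Pool.Agent.X312.MR
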