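import Pool.Agent.X312.MR.Defs

/-!
# Linear algebra of indecomposable representations
-/

universe v

namespace Pool.Agent.X312.MR

open Module

variable {K : Type v} [Field K] {G V M L : Type v} [AddCommGroup V] [Module K V]
  [AddCommGroup M] [Module K M] [AddCommGroup L] [Module K L]
  {τ : G → V → V} {σ : G → M → M} {κ : G → L → L}

lemma IsHom.comp {f : V →ₗ[K] M} {h : M →ₗ[K] L} (hh : IsHom σ κ h) (hf : IsHom τ σ f) :
    IsHom τ κ (h ∘ₗ f) := by
  intro g x
  rw [LinearMap.comp_apply, hf, hh, LinearMap.comp_apply]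

lemma IsHom.id : IsHom τ τ (LinearMap.id : V →ₗ[K] V) := fun _ _ => rfl

lemma IsHom.zero (hσ : ∀ g, IsLinearMap K (σ g)) : IsHom τ σ (0 : V →ₗ[K] M) := by
  intro g x
  rw [LinearMap.zero_apply, LinearMap.zero_apply, (hσ g).map_zero]

lemma IsHom.add (hσ : ∀ g, IsLinearMap K (σ g)) {f f' : V →ₗ[K] M} (h : IsHom τ σ f)
    (h' : IsHom τ σ f') : IsHom τ σ (f + f') := by
  intro g x
  rw [LinearMap.add_apply, LinearMap.add_apply, (hσ g).map_add, h, h']

lemma IsHom.smul (hσ : ∀ g, IsLinearMap K (σ g)) {f : V →ₗ[K] M} (t : K) (h : IsHom τ σ f) :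
    IsHom τ σ (t • f) := by
  intro g x
  rw [LinearMap.smul_apply, LinearMap.smul_apply, (hσ g).map_smul, h]

lemma IsHom.sub (hσ : ∀ g, IsLinearMap K (σ g)) {f f' : V →ₗ[K] M} (h : IsHom τ σ f)
    (h' : IsHom τ σ f') : IsHom τ σ (f - f') := by
  intro g x
  rw [LinearMap.sub_apply, LinearMap.sub_apply, (hσ g).map_sub, h, h']

lemma IsHom.sum (hσ : ∀ g, IsLinearMap K (σ g)) {r : ℕ} {f : Fin r → (V →ₗ[K] M)}
    (h : ∀ i, IsHom τ σ (f i)) : IsHom τ σ (∑ i, f i) := by
  classical
  refine Finset.sum_induction _ (fun f => IsHom τ σ f) (fun _ _ => IsHom.add hσ)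
    (IsHom.zero hσ) fun i _ => h i

lemma IsHom.pow {a : V →ₗ[K] V} (ha : IsHom τ τ a) (n : ℕ) : IsHom τ τ (a ^ n) := by
  induction n with
  | zero => exact fun _ _ => rfl
  | succ n ih =>
    rw [pow_succ]
    exact ih.comp ha

lemma IsHom.symm {a : V →ₗ[K] V} (ha : IsHom τ τ a) {b : V →ₗ[K] V} (h1 : a ∘ₗ b = LinearMap.id)
    (h2 : b ∘ₗ a = LinearMap.id) : IsHom τ τ b := by
  intro g x
  have e1 : ∀ y, a (b y) = y := fun y => congrArg (fun f : V →ₗ[K] V => f y) h1
  have e2 : ∀ y, b (a y) = y := fun y => congrArg (fun f : V →ₗ[K] V => f y) h2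
  have h3 := ha g (b x)
  rw [e1] at h3
  rw [← h3, e2]

variable [FiniteDimensional K V]

/-- **Fitting's lemma.** -/
lemma fitting (hτ : ∀ g, IsLinearMap K (τ g)) (hV : IsIndecomposable K τ) {a : V →ₗ[K] V}
    (ha : IsHom τ τ a) : Function.Bijective a ∨ IsNilpotent a := by
  obtain ⟨n, hn0, hn⟩ : ∃ n : ℕ, 0 < n ∧ IsCompl (LinearMap.ker (a ^ n)) (LinearMap.range (a ^ n)) := by
    have h := (LinearMap.eventually_isCompl_ker_pow_range_pow a).and (Filter.eventually_gt_atTop 0)
    obtain ⟨n, hn⟩ := h.exists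
    exact ⟨n, hn.2, hn.1⟩
  have hp := ha.pow n
  set e : V →ₗ[K] V := (LinearMap.ker (a ^ n)).subtype ∘ₗ
    (LinearMap.ker (a ^ n)).projectionOnto _ hn with he
  have hker : ∀ y ∈ LinearMap.ker (a ^ n), e y = y := by
    intro y hy
    rw [he, LinearMap.comp_apply]
    exact congrArg Subtype.val
      (Submodule.projectionOnto_apply_left hn ⟨y, hy⟩)
  have hran : ∀ y ∈ LinearMap.range (a ^ n), e y = 0 := by
    intro y hy
    rw [he, LinearMap.comp_apply, (Submodule.projectionOnto_apply_eq_zero_iff hn).2 hy,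
      map_zero]
  have hee : ∀ x, e x ∈ LinearMap.ker (a ^ n) := fun x => Subtype.property _
  have hsplit : ∀ x, ∃ y ∈ LinearMap.ker (a ^ n), ∃ z ∈ LinearMap.range (a ^ n), x = y + z := by
    intro x
    have hx : x ∈ LinearMap.ker (a ^ n) ⊔ LinearMap.range (a ^ n) := by
      rw [hn.sup_eq_top]; exact Submodule.mem_top
    obtain ⟨y, hy, z, hz, hyz⟩ := Submodule.mem_sup.1 hx
    exact ⟨y, hy, z, hz, hyz.symm⟩
  have hhom : IsHom τ τ e := by
    intro g x
    obtain ⟨y, hy, z, hz, rfl⟩ := hsplit x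
    have h1 : τ g y ∈ LinearMap.ker (a ^ n) := by
      rw [LinearMap.mem_ker] at hy ⊢
      rw [hp, hy, (hτ g).map_zero]
    have h2 : τ g z ∈ LinearMap.range (a ^ n) := by
      obtain ⟨w, rfl⟩ := hz
      exact ⟨τ g w, hp g w⟩
    rw [(hτ g).map_add, map_add, map_add, hker _ h1, hran _ h2, hker _ hy, hran _ hz, add_zero,
      add_zero]
  rcases hV.2 e hhom (fun x => hker _ (hee x)) with h | h
  · left
    have h0 : LinearMap.ker (a ^ n) = ⊥ := by
      rw [eq_bot_iff]
      intro y hy
      have h1 := hker y hy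
      rw [h] at h1
      exact (Submodule.mem_bot K).2 h1.symm
    have h1 : Function.Injective a := by
      have h2 : Function.Injective (a ^ n) := LinearMap.ker_eq_bot.1 h0
      obtain ⟨j, rfl⟩ : ∃ j, n = j + 1 := ⟨n - 1, by omega⟩
      rw [pow_succ] at h2
      exact Function.Injective.of_comp h2
    exact ⟨h1, LinearMap.injective_iff_surjective.1 h1⟩
  · right
    refine ⟨n, ?_⟩
    apply LinearMap.ext
    intro x
    have h1 := hran ((a ^ n) x) ⟨x, rfl⟩
    rw [h] at h1
    exact h1

/-- Sums of endomorphisms which are not bijective are not bijective. -/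
lemma local_add (hτ : ∀ g, IsLinearMap K (τ g)) (hV : IsIndecomposable K τ) {a b : V →ₗ[K] V}
    (ha : IsHom τ τ a) (hb : IsHom τ τ b) (hab : Function.Bijective (a + b)) :
    Function.Bijective a ∨ Function.Bijective b := by
  by_contra hcon
  push Not at hcon
  set E := LinearEquiv.ofBijective (a + b) hab with hE
  set c : V →ₗ[K] V := E.symm.toLinearMap with hc
  have h1 : (a + b) ∘ₗ c = LinearMap.id := by
    apply LinearMap.ext; intro x
    exact E.apply_symm_apply x
  have h2 : c ∘ₗ (a + b) = LinearMap.id := by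
    apply LinearMap.ext; intro x
    exact E.symm_apply_apply x
  have hchom : IsHom τ τ c := (ha.add hτ hb).symm h1 h2
  have hcb : Function.Bijective c := E.symm.bijective
  have hca : ¬ Function.Bijective (c ∘ₗ a) := by
    intro h
    apply hcon.1
    have h3 : Function.Injective a := Function.Injective.of_comp h.1
    exact ⟨h3, LinearMap.injective_iff_surjective.1 h3⟩
  have hnil := (fitting hτ hV (hchom.comp ha)).resolve_left hca
  have h3 : c ∘ₗ b = 1 - c ∘ₗ a := by
    rw [LinearMap.comp_add] at h2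
    rw [eq_sub_iff_add_eq, add_comm]
    exact h2
  have h4 : IsUnit (1 - c ∘ₗ a : Module.End K V) := hnil.isUnit_one_sub
  rw [← h3] at h4
  have h5 := (Module.End.isUnit_iff _).1 h4
  apply hcon.2
  have h6 : Function.Injective b := Function.Injective.of_comp h5.1
  exact ⟨h6, LinearMap.injective_iff_surjective.1 h6⟩

/-- The homomorphisms which are not split. -/
def rad (τ : G → V → V) (σ : G → M → M) (hτ : ∀ g, IsLinearMap K (τ g))
    (hσ : ∀ g, IsLinearMap K (σ g)) (hV : IsIndecomposable K τ) : Submodule K (V →ₗ[K] M) where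
  carrier := {f | IsHom τ σ f ∧ ∀ h : M →ₗ[K] V, IsHom σ τ h → ¬ Function.Bijective (h ∘ₗ f)}
  add_mem' := by
    rintro f f' ⟨hf, h1⟩ ⟨hf', h1'⟩
    refine ⟨hf.add hσ hf', fun h hh hb => ?_⟩
    rw [LinearMap.comp_add] at hb
    rcases local_add hτ hV (hh.comp hf) (hh.comp hf') hb with h2 | h2
    · exact h1 h hh h2
    · exact h1' h hh h2
  zero_mem' := by
    refine ⟨IsHom.zero hσ, fun h _ hb => ?_⟩
    obtain ⟨x, hx⟩ := hV.1
    rw [LinearMap.comp_zero] at hb
    exact hx (hb.1 (by simp : (0 : V →ₗ[K] V) x = (0 : V →ₗ[K] V) 0))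
  smul_mem' := by
    rintro t f ⟨hf, h1⟩
    refine ⟨hf.smul hσ t, fun h hh hb => h1 h hh ?_⟩
    rw [LinearMap.comp_smul] at hb
    have h2 : Function.Injective (h ∘ₗ f) := by
      intro x y hxy
      apply hb.1
      rw [LinearMap.smul_apply, LinearMap.smul_apply, hxy]
    exact ⟨h2, LinearMap.injective_iff_surjective.1 h2⟩

/-- The homomorphisms. -/
def hom (τ : G → V → V) (σ : G → M → M) (hσ : ∀ g, IsLinearMap K (σ g)) :
    Submodule K (V →ₗ[K] M) where
  carrier := {f | IsHom τ σ f}
  add_mem' := fun h h' => h.add hσ h'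
  zero_mem' := IsHom.zero hσ
  smul_mem' := fun t _ h => h.smul hσ t

omit [FiniteDimensional K V] in
lemma not_bij_inj [FiniteDimensional K V] {a : V →ₗ[K] V} (h : ¬ Function.Bijective a) :
    ¬ Function.Injective a := fun h1 => h ⟨h1, LinearMap.injective_iff_surjective.1 h1⟩

/-- **Splitting.** -/
theorem split_of_indep [IsAlgClosed K] (hτ : ∀ g, IsLinearMap K (τ g))
    (hσ : ∀ g, IsLinearMap K (σ g)) (hV : IsIndecomposable K τ) {R : ℕ}
    (a : Fin R → (V →ₗ[K] M)) (ha : ∀ i, IsHom τ σ (a i))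
    (hlin : LinearIndependent K (fun i => (rad τ σ hτ hσ hV).mkQ (a i))) :
    ∀ r ≤ R, IsSummandPow K τ σ r := by
  classical
  intro r
  induction r with
  | zero =>
    intro _
    exact ⟨Fin.elim0, Fin.elim0, fun i => i.elim0, fun i => i.elim0, fun i => i.elim0,
      fun i => i.elim0⟩
  | succ r ih =>
    intro hr
    obtain ⟨f, h, hf, hh, h1, h2⟩ := ih (by omega)
    set N := rad τ σ hτ hσ hV with hN
    -- an element outside the span
    obtain ⟨j, hj⟩ : ∃ j, a j ∉ Submodule.span K (Set.range f) ⊔ N := by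
      by_contra hcon
      push Not at hcon
      have h3 : ∀ j, N.mkQ (a j) ∈ Submodule.span K (Set.range fun i => N.mkQ (f i)) := by
        intro j
        obtain ⟨y, hy, z, hz, hyz⟩ := Submodule.mem_sup.1 (hcon j)
        have h4 : N.mkQ z = 0 := by
          rw [Submodule.mkQ_apply, Submodule.Quotient.mk_eq_zero]; exact hz
        rw [← hyz, map_add, h4, add_zero]
        have h5 : (Set.range fun i => N.mkQ (f i)) = N.mkQ '' Set.range f := by
          rw [← Set.range_comp]; rfl
        rw [h5, ← Submodule.map_span]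
        exact ⟨y, hy, rfl⟩
      have hfd : FiniteDimensional K (Submodule.span K (Set.range fun i => N.mkQ (f i))) :=
        FiniteDimensional.span_of_finite K (Set.finite_range _)
      have h5 : LinearIndependent K (fun j => (⟨N.mkQ (a j), h3 j⟩ :
          Submodule.span K (Set.range fun i => N.mkQ (f i)))) := by
        refine LinearIndependent.of_comp (Submodule.subtype _) ?_
        exact hlin
      have h6 := h5.fintype_card_le_finrank
      have h7 := finrank_range_le_card (R := K) (fun i => N.mkQ (f i))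
      rw [Set.finrank] at h7
      rw [Fintype.card_fin] at h6 h7
      omega
    set s := a j with hs
    have hshom : IsHom τ σ s := ha j
    -- eigenvalues
    have heig : ∀ i : Fin r, ∃ t : K,
        ¬ Function.Bijective ((h i ∘ₗ s) - t • (LinearMap.id : V →ₗ[K] V) : V →ₗ[K] V) := by
      intro i
      have : Nontrivial V := by
        obtain ⟨x, hx⟩ := hV.1
        exact ⟨⟨x, 0, hx⟩⟩
      obtain ⟨t, ht⟩ := Module.End.exists_eigenvalue (h i ∘ₗ s : Module.End K V)
      refine ⟨t, fun hb => ?_⟩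
      obtain ⟨x, hx, hx0⟩ := ht.exists_hasEigenvector
      have h3 := Module.End.mem_eigenspace_iff.1 hx
      apply hx0
      apply hb.1
      rw [map_zero, LinearMap.sub_apply, LinearMap.smul_apply, LinearMap.id_apply, h3, sub_self]
    choose t ht using heig
    set s' : V →ₗ[K] M := s - ∑ i, f i ∘ₗ (h i ∘ₗ s) with hs'
    have hs'hom : IsHom τ σ s' :=
      hshom.sub hσ (IsHom.sum hσ fun i => (hf i).comp ((hh i).comp hshom))
    have hs'N : s' ∉ N := by
      intro hmem
      apply hj
      have h3 : s = ∑ i, t i • f i + (s' + ∑ i, f i ∘ₗ ((h i ∘ₗ s) - t i • (LinearMap.id : V →ₗ[K] V))) := by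
        have h4 : ∑ i, f i ∘ₗ ((h i ∘ₗ s) - t i • (LinearMap.id : V →ₗ[K] V)) =
            ∑ i, f i ∘ₗ (h i ∘ₗ s) - ∑ i, t i • f i := by
          rw [← Finset.sum_sub_distrib]
          refine Finset.sum_congr rfl fun i _ => ?_
          rw [LinearMap.comp_sub, LinearMap.comp_smul, LinearMap.comp_id]
        rw [h4, hs']
        abel
      rw [h3]
      refine Submodule.add_mem_sup (Submodule.sum_mem _ fun i _ => Submodule.smul_mem _ _
        (Submodule.subset_span ⟨i, rfl⟩)) (Submodule.add_mem _ hmem (Submodule.sum_mem _ ?_))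
      intro i _
      refine ⟨(hf i).comp (((hh i).comp hshom).sub hτ (IsHom.id.smul hτ (t i))),
        fun w hw hb => ?_⟩
      apply not_bij_inj (ht i)
      have h5 := hb.1
      intro x y hxy
      apply h5
      exact congrArg (fun v => w (f i v)) hxy
    -- a retraction
    obtain ⟨w, hw, hwb⟩ : ∃ w : M →ₗ[K] V, IsHom σ τ w ∧ Function.Bijective (w ∘ₗ s') := by
      by_contra hcon
      push Not at hcon
      exact hs'N ⟨hs'hom, hcon⟩
    set E := LinearEquiv.ofBijective (w ∘ₗ s') hwb with hE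
    set c : V →ₗ[K] V := E.symm.toLinearMap with hc
    have e1 : (w ∘ₗ s') ∘ₗ c = LinearMap.id := by
      apply LinearMap.ext; intro x
      exact E.apply_symm_apply x
    have e2 : c ∘ₗ (w ∘ₗ s') = LinearMap.id := by
      apply LinearMap.ext; intro x
      exact E.symm_apply_apply x
    have hchom : IsHom τ τ c := (hw.comp hs'hom).symm e1 e2
    set h₀ : M →ₗ[K] V := c ∘ₗ w with hh₀
    have hh₀hom : IsHom σ τ h₀ := hchom.comp hw
    have e3 : ∀ x, h₀ (s' x) = x := fun x => congrArg (fun f : V →ₗ[K] V => f x) e2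
    have e4 : ∀ i x, h i (s' x) = 0 := by
      intro i x
      rw [hs', LinearMap.sub_apply, LinearMap.sum_apply, map_sub, map_sum,
        Finset.sum_eq_single i]
      · rw [LinearMap.comp_apply, h1, LinearMap.comp_apply, sub_self]
      · intro k _ hk
        rw [LinearMap.comp_apply, h2 i k _ (Ne.symm hk)]
      · intro hi; exact absurd (Finset.mem_univ i) hi
    set h' : M →ₗ[K] V := h₀ - ∑ i, (h₀ ∘ₗ f i) ∘ₗ h i with hh'
    have hh'hom : IsHom σ τ h' :=
      hh₀hom.sub hτ (IsHom.sum hτ fun i => (hh₀hom.comp (hf i)).comp (hh i))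
    have e5 : ∀ x, h' (s' x) = x := by
      intro x
      rw [hh', LinearMap.sub_apply, LinearMap.sum_apply, e3, Finset.sum_eq_zero, sub_zero]
      intro i _
      rw [LinearMap.comp_apply, e4, map_zero]
    have e6 : ∀ k x, h' (f k x) = 0 := by
      intro k x
      rw [hh', LinearMap.sub_apply, LinearMap.sum_apply, Finset.sum_eq_single k]
      · have e7 : ((h₀ ∘ₗ f k) ∘ₗ h k) (f k x) = h₀ (f k x) := by
          change h₀ (f k (h k (f k x))) = _
          rw [h1]
        rw [e7, sub_self]
      · intro i _ hi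
        rw [LinearMap.comp_apply, h2 i k _ hi, map_zero]
      · intro hi; exact absurd (Finset.mem_univ k) hi
    refine ⟨Fin.cons s' f, Fin.cons h' h, ?_, ?_, ?_, ?_⟩
    · intro i
      refine Fin.cases ?_ (fun i => ?_) i
      · exact hs'hom
      · exact hf i
    · intro i
      refine Fin.cases ?_ (fun i => ?_) i
      · exact hh'hom
      · exact hh i
    · intro i
      refine Fin.cases ?_ (fun i => ?_) i
      · exact e5
      · exact h1 i
    · intro i k
      refine Fin.cases ?_ (fun i => ?_) i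
      · refine Fin.cases ?_ (fun k => ?_) k
        · intro x hx; exact absurd rfl hx
        · intro x _; exact e6 k x
      · refine Fin.cases ?_ (fun k => ?_) k
        · intro x _; exact e4 i x
        · intro x hx
          exact h2 i k x fun h => hx (by rw [h])

end Pool.Agent.X312.MR
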