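import Pool.Agent.X312.FC.Rank
import Pool.Agent.X312.MR.Lin
import Pool.Agent.X312.MR.LawDefs

/-!
# Multiplicities of indecomposable representations in functors on correspondences
-/

open CategoryTheory AlgebraicGeometry

universe u v w

namespace Pool.Agent.X312.MR

open Module
open Pool.Agent.H914 Pool.Agent.H914.VarClass Pool.Agent.H914.VarClass.Obj
  Pool.Agent.H914.WeilCohomology Pool.Agent.Y133.Half Pool.Agent.Y133.Half.Sys
  Pool.Agent.H281R3.HT Pool.Agent.W536.RR Pool.Agent.X312.RL
  Pool.Agent.X312.DR Pool.Agent.X312.FC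

open Pool.Agent.X312.FM (Family Has IsRingFamily IsNondeg dimOn a_eq sysOf)
open Pool.Agent.X312.FK (composite diagClass pf pb cup unitClass)

variable {k : Type u} [Field k] {𝒱 : VarClass k} {ops : CycleOps 𝒱}
  {W : WeilCohomology.{u, v} ops} {X Y Z P : 𝒱.Obj} {C : Family W} {T : CorrData W}

/-- The gap law with ranks, for stable families of subspaces. -/
theorem rank_fun_law (hC : IsRingFamily C) (hT : T.IsFunctor C)
    {N' N : ∀ Z : 𝒱.Obj, Submodule W.K (T.M Z)} (hN' : StableC C T N') (hN : StableC C T N)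
    (X : 𝒱.Obj) (hX : ∀ n, IsNondeg C (pw X n)) {d : ℕ}
    (hd : ∀ (l : ℕ) (g : W.H ((pw X l).prod (pw X l))), Has C g → composite W g g = g →
      (∃ x ∈ N (pw X l), T.act g x ∉ N' (pw X l)) → d ≤ corrRank g) (m : ℕ) :
    N (pw X m) ≤ N' (pw X m) ∨
    ∀ n : ℕ, FK.IndepMod (N (pw X n) : Set (T.M (pw X n))) (N' (pw X n))
      (rankBound d (finrank W.K (W.H X)) (dimOn C (pw X n)) m n) := by
  have hd' : ∀ l, ∀ a ∈ cOps C T N' N (pw X l) (pw X l),
      a.1 ∘ₗ a.1 = a.1 → a.2 ∘ₗ a.2 = a.2 → (∃ z, a.1 z ≠ 0) →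
      d ≤ finrank W.K (LinearMap.range a.2) := by
    rintro l ⟨a, b⟩ ⟨c, hc, h1, h2⟩ _ hbb ⟨z, hz⟩
    change b = W.corr c at h1
    change b ∘ₗ b = b at hbb
    change d ≤ finrank W.K (LinearMap.range b)
    have h5 : W.corr (composite W c c) = W.corr c ∘ₗ W.corr c := by
      rw [composite, pf, cup, pb, pb]
      exact corr_comp' _ ((sysOf hC).even hc)
    rw [h1] at hbb ⊢
    refine hd l c hc (corrL_injective _ _ (h5.trans hbb)) ?_
    obtain ⟨x, hx, rfl⟩ := cls_surj z
    refine ⟨x, hx, fun h0 => hz ?_⟩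
    apply Subtype.ext
    rw [h2 x hx, Submodule.mkQ_apply, (Submodule.Quotient.mk_eq_zero _).2 h0]
    rfl
  rcases sys_rank (c_isMdl hC hT hN' hN) X (fun n => c_fine hC hT hN' hN (pw X n))
    (fun n => (a_eq hC (hX n)).trans rfl) hd' m with h | h
  · left
    intro x hx
    have h1 := h (cls x hx)
    have h2 : (N' (pw X m)).mkQ x = 0 := congrArg Subtype.val h1
    rwa [Submodule.mkQ_apply, Submodule.Quotient.mk_eq_zero] at h2
  · right
    intro n
    have key : Pool.Agent.X312.FN.IndepModulo W.K (N (pw X n) : Set (T.M (pw X n)))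
        (N' (pw X n) : Set (T.M (pw X n)))
        (rankBound d (finrank W.K (W.H X)) (dimOn C (pw X n)) m n) := by
      refine Pool.Agent.X312.FN.indep_of _ _ fun hfd => ?_
      have h1 := h n hfd
      rw [a_eq hC (hX n)] at h1
      have h4 : cst (finrank W.K (W.H X)) (m + 1) 2 n =
          4 * (m + 4) * (finrank W.K (W.H X) : ℝ) ^ (m + 6) * Real.log (n + 2) / (n + 1) := by
        unfold cst
        push_cast
        ring
      rw [h4] at h1
      exact h1
    obtain ⟨r, a, h1, h2, h3⟩ := key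
    rw [Submodule.span_eq] at h2
    exact ⟨r, a, h1, h2, h3⟩

variable {S : CorrData W} {V : Type v} [AddCommGroup V] [Module W.K V]

/-- The functor of the linear maps from `V`. -/
def homData (S : CorrData W) (hS : S.IsLinear) (V : Type v) [AddCommGroup V] [Module W.K V] :
    CorrData W where
  M := fun Z => V →ₗ[W.K] S.M Z
  act := fun c f =>
    { toFun := fun x => S.act c (f x)
      map_add' := fun x y => by rw [map_add, hS.act_add]
      map_smul' := fun t x => by rw [map_smul, hS.act_smul]; rfl }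

/-- The element as a linear map. -/
def tl {hS : S.IsLinear} {X : 𝒱.Obj} (f : (homData S hS V).M X) : V →ₗ[W.K] S.M X := f

lemma homData_isFunctor (hS : S.IsFunctor C) :
    (homData S hS.toIsLinear V).IsFunctor C where
  act_add {X Y} c f f' := LinearMap.ext fun x =>
    hS.act_add c (tl f x) (tl f' x)
  act_smul {X Y} c t f := LinearMap.ext fun x => hS.act_smul c t (tl f x)
  add_act {X Y} c d f := LinearMap.ext fun x => hS.add_act c d (tl f x)
  smul_act {X Y} t c f := LinearMap.ext fun x => hS.smul_act t c (tl f x)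
  diag_act X f := LinearMap.ext fun x => hS.diag_act X (tl f x)
  comp_act {X Y Z} c d hc hd f := LinearMap.ext fun x =>
    hS.comp_act c d hc hd (tl f x)

variable {G : Type v} {τ : G → V → V} {ρ : ∀ Z : 𝒱.Obj, G → S.M Z → S.M Z}

/-- **The law for homomorphisms modulo the homomorphisms which are not split.** -/
theorem indep_law [FiniteDimensional W.K V] (hC : IsRingFamily C)
    (hS : S.IsFunctor C) (hρ : IsNaturalAction C S ρ) (hτ : ∀ g, IsLinearMap W.K (τ g))
    (hV : IsIndecomposable W.K τ) {b d : ℕ} (hb : IsBounded C S b)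
    (hd : (d - 1) * b < finrank W.K V) (X : 𝒱.Obj) (hX : ∀ n, IsNondeg C (pw X n)) (m : ℕ) :
    ¬ IsSummandPow W.K τ (ρ (pw X m)) 1 ∨
    ∀ n : ℕ, FK.IndepMod (hom τ (ρ (pw X n)) (hρ.lin _) : Set (V →ₗ[W.K] S.M (pw X n)))
      (rad τ (ρ (pw X n)) hτ (hρ.lin _) hV)
      (rankBound d (finrank W.K (W.H X)) (dimOn C (pw X n)) m n) := by
  have hT := homData_isFunctor (V := V) hS
  have hN : StableC C (homData S hS.toIsLinear V) (fun Z => hom τ (ρ Z) (hρ.lin Z)) := by
    intro Z Z' c hc f hf g x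
    change S.act c (tl f (τ g x)) = ρ Z' g (S.act c (tl f x))
    have h1 : tl f (τ g x) = ρ Z g (tl f x) := hf g x
    rw [h1, hρ.comm c hc]
  have hN' : StableC C (homData S hS.toIsLinear V)
      (fun Z => rad τ (ρ Z) hτ (hρ.lin Z) hV) := by
    intro Z Z' c hc f hf
    refine ⟨fun g x => hN Z Z' c hc f hf.1 g x, fun h hh hbij => ?_⟩
    refine hf.2 (h ∘ₗ actL hS c) (fun g x => ?_) hbij
    change h (S.act c (ρ Z g x)) = τ g (h (S.act c x))
    rw [hρ.comm c hc, hh]
  have hrank : ∀ (l : ℕ) (g : W.H ((pw X l).prod (pw X l))), Has C g → composite W g g = g →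
      (∃ f ∈ hom τ (ρ (pw X l)) (hρ.lin (pw X l)),
        (homData S hS.toIsLinear V).act g f ∉ rad τ (ρ (pw X l)) hτ (hρ.lin (pw X l)) hV) →
      d ≤ corrRank g := by
    rintro l g hg hgg ⟨f, hf, hf'⟩
    obtain ⟨h, hh, hbij⟩ : ∃ h : S.M (pw X l) →ₗ[W.K] V, IsHom (ρ (pw X l)) τ h ∧
        Function.Bijective (h ∘ₗ (homData S hS.toIsLinear V).act g f) := by
      by_contra hcon
      push Not at hcon
      exact hf' ⟨fun g' x => hN _ _ g hg f hf g' x, hcon⟩
    have h1 : LinearIndependent W.K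
        (fun i => S.act g (tl (hS := hS.toIsLinear) f (finBasis W.K V i))) := by
      have h2 := (finBasis W.K V).linearIndependent.map'
        (h ∘ₗ (homData S hS.toIsLinear V).act g f) (LinearMap.ker_eq_bot.2 hbij.1)
      exact LinearIndependent.of_comp h h2
    have h3 := hb _ g hg hgg _ _ h1
    have h4 : (d - 1) * b < corrRank g * b := hd.trans_le (by rw [mul_comm (corrRank g)]; exact h3)
    have h5 := Nat.lt_of_mul_lt_mul_right h4
    omega
  rcases rank_fun_law hC hT hN' hN X hX hrank m with h | h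
  · left
    rintro ⟨f, w, hf, hw, h1, _⟩
    have h2 : f 0 ∈ rad τ (ρ (pw X m)) hτ (hρ.lin (pw X m)) hV := h (hf 0)
    refine h2.2 (w 0) (hw 0) ?_
    have h3 : (w 0) ∘ₗ (f 0) = LinearMap.id := LinearMap.ext (h1 0)
    rw [h3]
    exact Function.bijective_id
  · exact Or.inr h

/-- **The multiplicity law.** -/
theorem mult_law [IsAlgClosed W.K] [FiniteDimensional W.K V] (hC : IsRingFamily C)
    (hS : S.IsFunctor C) (hρ : IsNaturalAction C S ρ) (hτ : ∀ g, IsLinearMap W.K (τ g))
    (hV : IsIndecomposable W.K τ) {b d : ℕ} (hb : IsBounded C S b)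
    (hd : (d - 1) * b < finrank W.K V) (X : 𝒱.Obj) (hX : ∀ n, IsNondeg C (pw X n)) (m : ℕ) :
    ¬ IsSummandPow W.K τ (ρ (pw X m)) 1 ∨
    ∀ n : ℕ, MultAtLeast W.K τ (ρ (pw X n))
      (rankBound d (finrank W.K (W.H X)) (dimOn C (pw X n)) m n) := by
  rcases indep_law hC hS hρ hτ hV hb hd X hX m with h | h
  · exact Or.inl h
  · right
    intro n
    obtain ⟨R, a, h1, h2, h3⟩ := h n
    exact ⟨R, h1, split_of_indep hτ (hρ.lin _) hV a h3 h2 R le_rfl⟩

/-- The cohomology as a functor. -/
noncomputable def hData (W : WeilCohomology.{u, v} ops) : CorrData W where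
  M := fun Z => W.H Z
  act := fun c x => W.corr c x

lemma hData_isFunctor (hC : IsRingFamily C) : (hData W).IsFunctor C where
  act_add c x y := (W.corr c).map_add x y
  act_smul c t x := (W.corr c).map_smul t x
  add_act c d x := by
    change W.corr (c + d) x = _
    rw [corr_add]; rfl
  smul_act t c x := by
    change W.corr (t • c) x = _
    rw [corr_smul]; rfl
  diag_act X x := by
    change W.corr (diagClass W X) x = x
    rw [diagClass, pf, unitClass, corr_diag_one]; rfl
  comp_act c d hc hd x := by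
    change W.corr (composite W c d) x = W.corr d (W.corr c x)
    have h5 : W.corr (composite W c d) = W.corr d ∘ₗ W.corr c := by
      rw [composite, pf, cup, pb, pb]
      exact corr_comp' _ ((sysOf hC).even hd)
    rw [h5]; rfl

lemma hData_natural (hC : IsRingFamily C) {ρ : FM.Operators W G} (hρ : FM.IsCompatible C ρ) :
    IsNaturalAction C (hData W) ρ where
  lin := hρ.lin
  comm {Z Z'} c hc g x := by
    change W.corr c (ρ Z g x) = ρ Z' g (W.corr c x)
    have e1 : ∀ y : W.H (Z.prod Z'), c * y = y * c := fun y =>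
      PH.even_comm ((sysOf hC).even hc) y
    rw [corr_apply, corr_apply, e1, e1]
    have h1 := hρ.push (snd Z Z') g (W.map (fst Z Z') x * c)
    have h2 := hρ.mul (Z.prod Z') g (W.map (fst Z Z') x) c hc
    have h3 := hρ.pull (fst Z Z') g x
    rw [pf, pf] at h1
    rw [cup, cup] at h2
    rw [pb, pb] at h3
    rw [h1, h2, h3]

lemma hData_isBounded : IsBounded C (hData W) 1 := by
  intro Z c _ _ r x hx
  rw [one_mul, corrRank]
  have h1 : LinearIndependent W.K (fun i => (⟨W.corr c (x i), x i, rfl⟩ :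
      LinearMap.range (W.corr c))) := by
    refine LinearIndependent.of_comp (Submodule.subtype _) ?_
    exact hx
  have h2 := h1.fintype_card_le_finrank
  rwa [Fintype.card_fin] at h2

end Pool.Agent.X312.MR
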