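import Pool.Agent.X312.MR.Law

/-!
# Multiplicities of indecomposable representations in the cohomology
-/

open CategoryTheory AlgebraicGeometry

universe u v

namespace Pool.Agent.X312.MR

open Module
open Pool.Agent.H914 Pool.Agent.H914.VarClass Pool.Agent.H914.VarClass.Obj
  Pool.Agent.H914.WeilCohomology Pool.Agent.Y133.Half Pool.Agent.X312.FC
open Pool.Agent.X312.FM (Family Has IsRingFamily IsNondeg dimOn Operators IsCompatible)

variable {k : Type u} [Field k] {𝒱 : VarClass k} {ops : CycleOps 𝒱}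
  {W : WeilCohomology.{u, v} ops} {C : Family W}

/-- **The multiplicity law for the cohomology.** -/
theorem coh_law [IsAlgClosed W.K] (hC : IsRingFamily C) {G : Type v} {ρ : Operators W G}
    (hρ : IsCompatible C ρ) {V : Type v} [AddCommGroup V] [Module W.K V]
    [FiniteDimensional W.K V] {τ : G → V → V} (hτ : ∀ g, IsLinearMap W.K (τ g))
    (hV : IsIndecomposable W.K τ) (X : 𝒱.Obj) (hX : ∀ n, IsNondeg C (pw X n)) (m : ℕ) :
    ¬ IsSummandPow W.K τ (ρ (pw X m)) 1 ∨
    ∀ n : ℕ, MultAtLeast W.K τ (ρ (pw X n))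
      (rankBound (finrank W.K V) (finrank W.K (W.H X)) (dimOn C (pw X n)) m n) := by
  have hpos : 0 < finrank W.K V := by
    obtain ⟨x, hx⟩ := hV.1
    have : Nontrivial V := ⟨⟨x, 0, hx⟩⟩
    exact finrank_pos
  exact mult_law (S := hData W) hC (hData_isFunctor hC) (hData_natural hC hρ) hτ hV
    hData_isBounded (by omega) X hX m

end Pool.Agent.X312.MR
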