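import Mathlib

/-!
# Representations: homomorphisms, indecomposable representations, multiplicities
-/

universe v

namespace Pool.Agent.X312.MR

variable {K : Type v} [Field K] {G V M : Type v} [AddCommGroup V] [Module K V] [AddCommGroup M]
  [Module K M]

/-- The linear map `f` commutes with the operators: `f (τ g x) = σ g (f x)`. -/
def IsHom (τ : G → V → V) (σ : G → M → M) (f : V →ₗ[K] M) : Prop :=
  ∀ (g : G) (x : V), f (τ g x) = σ g (f x)

/-- The space `V ≠ 0` with the operators `τ g` is indecomposable: the idempotent linear maps which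
commute with the operators are `0` and `1`. -/
def IsIndecomposable (K : Type v) [Field K] {G V : Type v} [AddCommGroup V] [Module K V]
    (τ : G → V → V) : Prop :=
  (∃ x : V, x ≠ 0) ∧ ∀ e : V →ₗ[K] V, IsHom τ τ e → (∀ x, e (e x) = e x) → e = 0 ∨ ∀ x, e x = x

/-- The direct sum of `r` copies of `V` is a direct summand of `M`, with the operators `τ g` and
`σ g`. -/
def IsSummandPow (K : Type v) [Field K] {G V M : Type v} [AddCommGroup V] [Module K V]
    [AddCommGroup M] [Module K M] (τ : G → V → V) (σ : G → M → M) (r : ℕ) : Prop :=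
  ∃ (f : Fin r → (V →ₗ[K] M)) (h : Fin r → (M →ₗ[K] V)), (∀ i, IsHom τ σ (f i)) ∧
    (∀ i, IsHom σ τ (h i)) ∧ (∀ i x, h i (f i x) = x) ∧ ∀ i j x, i ≠ j → h i (f j x) = 0

/-- The direct sum of `r` copies of `V` is a direct summand of `M` for some `r ≥ x`. -/
def MultAtLeast (K : Type v) [Field K] {G V M : Type v} [AddCommGroup V] [Module K V]
    [AddCommGroup M] [Module K M] (τ : G → V → V) (σ : G → M → M) (x : ℝ) : Prop :=
  ∃ r : ℕ, x ≤ r ∧ IsSummandPow K τ σ r

end Pool.Agent.X312.MR
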