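import Pool.Agent.X312.MR.Defs

/-!
# Several representations at once
-/

universe v

namespace Pool.Agent.X312.MR

variable {G M : Type v} {ι : Type} {V : ι → Type v}

/-- The representations `V i` are pairwise not isomorphic. -/
def AreNonisomorphic (K : Type v) [Field K] [∀ i, AddCommGroup (V i)] [∀ i, Module K (V i)]
    (τ : ∀ i, G → V i → V i) : Prop :=
  ∀ i j, i ≠ j → ∀ u : V i →ₗ[K] V j, IsHom (τ i) (τ j) u → ¬ Function.Bijective u

/-- The direct sum of `r i` copies of `V i`, for all `i` together, is a direct summand of `M`. -/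
def IsSummandSum (K : Type v) [Field K] [∀ i, AddCommGroup (V i)] [∀ i, Module K (V i)]
    [AddCommGroup M] [Module K M] (τ : ∀ i, G → V i → V i) (σ : G → M → M) (r : ι → ℕ) : Prop :=
  ∃ (f : ∀ i, Fin (r i) → (V i →ₗ[K] M)) (h : ∀ i, Fin (r i) → (M →ₗ[K] V i)),
    (∀ i j, IsHom (τ i) σ (f i j)) ∧ (∀ i j, IsHom σ (τ i) (h i j)) ∧
    (∀ i j x, h i j (f i j x) = x) ∧
    ∀ (p q : Σ i, Fin (r i)) (x : V q.1), p ≠ q → h p.1 p.2 (f q.1 q.2 x) = 0

end Pool.Agent.X312.MR
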