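import Pool.Agent.X312.MR.Gen
import Pool.Agent.X312.MR.FamDefs

/-!
# Several indecomposable representations at once
-/

open CategoryTheory AlgebraicGeometry

universe u v

namespace Pool.Agent.X312.MR

open Module

section

variable {K : Type v} [Field K] {G V L M : Type v} [AddCommGroup V] [Module K V]
  [AddCommGroup L] [Module K L] [AddCommGroup M] [Module K M]
  {τ : G → V → V} {κ : G → L → L} {σ : G → M → M}

/-- If a bijective endomorphism of `V ≠ 0` factors through an indecomposable `L` then `V` and `L` are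
isomorphic. -/
lemma bij_of_factor (hV : ∃ x : V, x ≠ 0) (hL : IsIndecomposable K κ) {u : V →ₗ[K] L}
    {w : L →ₗ[K] V} (hu : IsHom τ κ u) (hw : IsHom κ τ w) (hb : Function.Bijective (w ∘ₗ u)) :
    Function.Bijective u := by
  set E := LinearEquiv.ofBijective (w ∘ₗ u) hb with hE
  set c : V →ₗ[K] V := E.symm.toLinearMap with hc
  have e1 : (w ∘ₗ u) ∘ₗ c = LinearMap.id := by
    apply LinearMap.ext; intro x
    exact E.apply_symm_apply x
  have e2 : c ∘ₗ (w ∘ₗ u) = LinearMap.id := by
    apply LinearMap.ext; intro x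
    exact E.symm_apply_apply x
  have hchom : IsHom τ τ c := (hw.comp hu).symm e1 e2
  have e1' : ∀ x, w (u (c x)) = x := fun x => congrArg (fun f : V →ₗ[K] V => f x) e1
  have e2' : ∀ x, c (w (u x)) = x := fun x => congrArg (fun f : V →ₗ[K] V => f x) e2
  have hinj : Function.Injective u := by
    intro x y hxy
    apply hb.1
    rw [LinearMap.comp_apply, LinearMap.comp_apply, hxy]
  refine ⟨hinj, ?_⟩
  rcases hL.2 (u ∘ₗ c ∘ₗ w) (hu.comp (hchom.comp hw)) (fun x => by
    change u (c (w (u (c (w x))))) = u (c (w x))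
    rw [e1']) with h | h
  · exfalso
    obtain ⟨x, hx⟩ := hV
    apply hx
    have h1 : u (c (w (u x))) = 0 := congrArg (fun f : L →ₗ[K] L => f (u x)) h
    rw [e2'] at h1
    apply hinj
    rw [h1, map_zero]
  · intro y
    exact ⟨c (w y), h y⟩

end

variable {K : Type v} [Field K] {G M : Type v} [AddCommGroup M] [Module K M] {ι : Type}
  {V : ι → Type v} [∀ i, AddCommGroup (V i)] [∀ i, Module K (V i)]
  [∀ i, FiniteDimensional K (V i)] {τ : ∀ i, G → V i → V i} {σ : G → M → M}

/-- **Splitting off several representations.** -/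
theorem split_family [Fintype ι] (hτ : ∀ i g, IsLinearMap K (τ i g))
    (hσ : ∀ g, IsLinearMap K (σ g)) (hV : ∀ i, IsIndecomposable K (τ i))
    (hne : AreNonisomorphic K τ) {e : ι → ℕ} (he : ∀ i, ResidueAtMost K (τ i) (e i))
    {R : ι → ℕ} (a : ∀ i, Fin (R i) → (V i →ₗ[K] M)) (ha : ∀ i j, IsHom (τ i) σ (a i j))
    (hlin : ∀ i, LinearIndependent K
      (fun j => (rad (τ i) σ (hτ i) hσ (hV i)).mkQ (a i j)))
    {r : ι → ℕ} (hr : ∀ i, (r i - 1) * e i < R i ∨ r i = 0) : IsSummandSum K τ σ r := by
  classical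
  have main : ∀ s : Finset ι, ∃ (f : ∀ i, Fin (r i) → (V i →ₗ[K] M))
      (h : ∀ i, Fin (r i) → (M →ₗ[K] V i)),
      (∀ i ∈ s, ∀ j, IsHom (τ i) σ (f i j)) ∧ (∀ i ∈ s, ∀ j, IsHom σ (τ i) (h i j)) ∧
      (∀ i ∈ s, ∀ j x, h i j (f i j x) = x) ∧
      ∀ (p q : Σ i, Fin (r i)) (x : V q.1), p.1 ∈ s → q.1 ∈ s → p ≠ q →
        h p.1 p.2 (f q.1 q.2 x) = 0 := by
    intro s
    induction s using Finset.induction_on with
    | empty =>
      exact ⟨fun _ _ => 0, fun _ _ => 0, fun i hi => absurd hi (Finset.notMem_empty i),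
        fun i hi => absurd hi (Finset.notMem_empty i),
        fun i hi => absurd hi (Finset.notMem_empty i),
        fun p _ _ hp => absurd hp (Finset.notMem_empty _)⟩
    | insert i₀ s hi₀ ih =>
      obtain ⟨f, h, hf, hh, h1, h2⟩ := ih
      set S' : Finset (Σ i, Fin (r i)) := s.sigma (fun _ => Finset.univ) with hS'
      have hmem : ∀ p : Σ i, Fin (r i), p ∈ S' ↔ p.1 ∈ s := by
        intro p
        rw [hS', Finset.mem_sigma]
        exact ⟨fun h => h.1, fun h => ⟨h, Finset.mem_univ _⟩⟩
      set P : M →ₗ[K] M := ∑ p ∈ S', f p.1 p.2 ∘ₗ h p.1 p.2 with hP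
      have hPx : ∀ x, P x = ∑ p ∈ S', f p.1 p.2 (h p.1 p.2 x) := by
        intro x
        rw [hP, LinearMap.sum_apply]
        rfl
      have hP1 : ∀ q ∈ S', ∀ y : V q.1, P (f q.1 q.2 y) = f q.1 q.2 y := by
        intro q hq y
        rw [hPx, Finset.sum_eq_single q]
        · rw [h1 q.1 ((hmem q).1 hq)]
        · intro p hp hpq
          rw [h2 p q y ((hmem p).1 hp) ((hmem q).1 hq) hpq, map_zero]
        · intro hq'; exact absurd hq hq'
      have hP2 : ∀ q ∈ S', ∀ x, h q.1 q.2 (P x) = h q.1 q.2 x := by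
        intro q hq x
        rw [hPx, map_sum, Finset.sum_eq_single q]
        · rw [h1 q.1 ((hmem q).1 hq)]
        · intro p hp hpq
          rw [h2 q p _ ((hmem q).1 hq) ((hmem p).1 hp) (Ne.symm hpq)]
        · intro hq'; exact absurd hq hq'
      have hPP : ∀ x, P (P x) = P x := by
        intro x
        conv_lhs => rw [hPx x]
        rw [map_sum, hPx]
        exact Finset.sum_congr rfl fun q hq => hP1 q hq _
      have hPhom : IsHom σ σ P := by
        intro g x
        rw [hPx, hPx]
        have h3 : σ g (∑ p ∈ S', f p.1 p.2 (h p.1 p.2 x)) =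
            ∑ p ∈ S', σ g (f p.1 p.2 (h p.1 p.2 x)) := map_sum ((hσ g).mk' (σ g)) _ _
        rw [h3]
        refine Finset.sum_congr rfl fun p hp => ?_
        rw [hh p.1 ((hmem p).1 hp), hf p.1 ((hmem p).1 hp)]
      -- the complement
      have hstab : ∀ g (x : LinearMap.ker P), σ g x.1 ∈ LinearMap.ker P := by
        intro g x
        rw [LinearMap.mem_ker, hPhom, LinearMap.mem_ker.1 x.2, (hσ g).map_zero]
      let σ' : G → LinearMap.ker P → LinearMap.ker P := fun g x => ⟨σ g x.1, hstab g x⟩
      have hσ' : ∀ g, IsLinearMap K (σ' g) := fun g =>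
        ⟨fun x y => Subtype.ext ((hσ g).map_add x.1 y.1),
          fun t x => Subtype.ext ((hσ g).map_smul t x.1)⟩
      let π : M →ₗ[K] LinearMap.ker P := LinearMap.codRestrict _ (LinearMap.id - P) (by
        intro x
        rw [LinearMap.mem_ker, LinearMap.sub_apply, LinearMap.id_apply, map_sub, hPP, sub_self])
      have hπ : ∀ x, ((π x : LinearMap.ker P) : M) = x - P x := fun _ => rfl
      have hπhom : IsHom σ σ' π := by
        intro g x
        apply Subtype.ext
        change σ g x - P (σ g x) = σ g (x - P x)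
        rw [hPhom, (hσ g).map_sub]
      have hιhom : IsHom σ' σ (LinearMap.ker P).subtype := fun g x => rfl
      have hπι : ∀ x : LinearMap.ker P, π x.1 = x := by
        intro x
        apply Subtype.ext
        rw [hπ, LinearMap.mem_ker.1 x.2, sub_zero]
      -- the homomorphisms from `V i₀`
      have hrad : ∀ j, P ∘ₗ a i₀ j ∈ rad (τ i₀) σ (hτ i₀) hσ (hV i₀) := by
        intro j
        have h3 : P ∘ₗ a i₀ j =
            ∑ p ∈ S', f p.1 p.2 ∘ₗ (h p.1 p.2 ∘ₗ a i₀ j) := by
          apply LinearMap.ext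
          intro x
          rw [LinearMap.comp_apply, hPx, LinearMap.sum_apply]
          rfl
        rw [h3]
        refine Submodule.sum_mem _ fun p hp => ?_
        have hps := (hmem p).1 hp
        have h4 : IsHom (τ i₀) (τ p.1) (h p.1 p.2 ∘ₗ a i₀ j) := (hh p.1 hps p.2).comp (ha i₀ j)
        refine ⟨(hf p.1 hps p.2).comp h4, fun w hw hb => ?_⟩
        have h5 : i₀ ≠ p.1 := fun h => hi₀ (h ▸ hps)
        refine hne i₀ p.1 h5 _ h4 ?_
        exact bij_of_factor (w := w ∘ₗ f p.1 p.2) (hV i₀).1 (hV p.1) h4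
          (hw.comp (hf p.1 hps p.2)) hb
      have hle : rad (τ i₀) σ' (hτ i₀) hσ' (hV i₀) ≤
          (rad (τ i₀) σ (hτ i₀) hσ (hV i₀)).comap
            (LinearMap.compRight K (LinearMap.ker P).subtype) := by
        rintro x ⟨hx, hx'⟩
        refine ⟨hιhom.comp hx, fun w hw hb => ?_⟩
        exact hx' (w ∘ₗ (LinearMap.ker P).subtype) (hw.comp hιhom) hb
      have hlin' : LinearIndependent K
          (fun j => (rad (τ i₀) σ' (hτ i₀) hσ' (hV i₀)).mkQ (π ∘ₗ a i₀ j)) := by
        refine LinearIndependent.of_comp (Submodule.mapQ _ _ _ hle) ?_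
        have h3 : (Submodule.mapQ _ _ _ hle) ∘
            (fun j => (rad (τ i₀) σ' (hτ i₀) hσ' (hV i₀)).mkQ (π ∘ₗ a i₀ j)) =
            fun j => (rad (τ i₀) σ (hτ i₀) hσ (hV i₀)).mkQ (a i₀ j) := by
          funext j
          rw [Function.comp_apply, Submodule.mkQ_apply, Submodule.mapQ_apply, Submodule.mkQ_apply,
            Submodule.Quotient.eq]
          have h4 : (LinearMap.compRight K (LinearMap.ker P).subtype) (π ∘ₗ a i₀ j) - a i₀ j =
              -(P ∘ₗ a i₀ j) := by
            apply LinearMap.ext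
            intro x
            change (a i₀ j x - P (a i₀ j x)) - a i₀ j x = -(P (a i₀ j x))
            abel
          rw [h4]
          exact Submodule.neg_mem _ (hrad j)
        rw [h3]
        exact hlin i₀
      obtain ⟨f', h', hf', hh', h1', h2'⟩ := split_gen (he i₀) (hτ i₀) hσ' (hV i₀)
        (fun j => π ∘ₗ a i₀ j) (fun j => hπhom.comp (ha i₀ j)) hlin' (r i₀) (hr i₀)
      have hfn : ∀ j x, h' j (π ((f' j x : LinearMap.ker P) : M)) = x := by
        intro j x
        rw [hπι, h1']
      refine ⟨Function.update f i₀ (fun j => (LinearMap.ker P).subtype ∘ₗ f' j),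
        Function.update h i₀ (fun j => h' j ∘ₗ π), ?_, ?_, ?_, ?_⟩
      · intro i hi j
        by_cases h0 : i = i₀
        · subst h0
          rw [Function.update_self]
          exact hιhom.comp (hf' j)
        · rw [Function.update_of_ne h0]
          exact hf i ((Finset.mem_insert.1 hi).resolve_left h0) j
      · intro i hi j
        by_cases h0 : i = i₀
        · subst h0
          rw [Function.update_self]
          exact (hh' j).comp hπhom
        · rw [Function.update_of_ne h0]
          exact hh i ((Finset.mem_insert.1 hi).resolve_left h0) j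
      · intro i hi j x
        by_cases h0 : i = i₀
        · subst h0
          rw [Function.update_self, Function.update_self]
          exact hfn j x
        · rw [Function.update_of_ne h0, Function.update_of_ne h0]
          exact h1 i ((Finset.mem_insert.1 hi).resolve_left h0) j x
      · rintro ⟨i, j⟩ ⟨i', j'⟩ x hi hi' hne'
        change Function.update h i₀ (fun j => h' j ∘ₗ π) i j
          (Function.update f i₀ (fun j => (LinearMap.ker P).subtype ∘ₗ f' j) i' j' x) = 0
        change i ∈ insert i₀ s at hi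
        change i' ∈ insert i₀ s at hi'
        by_cases h0 : i = i₀
        · subst h0
          by_cases h0' : i' = i
          · subst h0'
            rw [Function.update_self, Function.update_self]
            change h' j (π ((f' j' x : LinearMap.ker P) : M)) = 0
            rw [hπι]
            exact h2' j j' x fun h => hne' (by rw [h])
          · rw [Function.update_self, Function.update_of_ne h0']
            have hq : (⟨i', j'⟩ : Σ i, Fin (r i)) ∈ S' :=
              (hmem _).2 ((Finset.mem_insert.1 hi').resolve_left h0')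
            change h' j (π (f i' j' x)) = 0
            have h3 : π (f i' j' x) = 0 := by
              apply Subtype.ext
              rw [hπ]
              have := hP1 ⟨i', j'⟩ hq x
              change P (f i' j' x) = f i' j' x at this
              rw [this, sub_self]
              rfl
            rw [h3, map_zero]
        · have hp : (⟨i, j⟩ : Σ i, Fin (r i)) ∈ S' :=
            (hmem _).2 ((Finset.mem_insert.1 hi).resolve_left h0)
          by_cases h0' : i' = i₀
          · subst h0'
            rw [Function.update_of_ne h0, Function.update_self]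
            change h i j ((f' j' x : LinearMap.ker P) : M) = 0
            have h3 := hP2 ⟨i, j⟩ hp ((f' j' x : LinearMap.ker P) : M)
            change h i j (P ((f' j' x : LinearMap.ker P) : M)) = _ at h3
            rw [← h3, LinearMap.mem_ker.1 (f' j' x).2, map_zero]
          · rw [Function.update_of_ne h0, Function.update_of_ne h0']
            exact h2 ⟨i, j⟩ ⟨i', j'⟩ x ((Finset.mem_insert.1 hi).resolve_left h0)
              ((Finset.mem_insert.1 hi').resolve_left h0') hne'
  obtain ⟨f, h, hf, hh, h1, h2⟩ := main Finset.univ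
  exact ⟨f, h, fun i => hf i (Finset.mem_univ i), fun i => hh i (Finset.mem_univ i),
    fun i => h1 i (Finset.mem_univ i),
    fun p q x => h2 p q x (Finset.mem_univ _) (Finset.mem_univ _)⟩

/-- Over an algebraically closed field the residue field is the field of coefficients. -/
lemma residue_one [IsAlgClosed K] {V : Type v} [AddCommGroup V] [Module K V]
    [FiniteDimensional K V] {τ : G → V → V} (hV : IsIndecomposable K τ) :
    ResidueAtMost K τ 1 := by
  refine ⟨fun _ => LinearMap.id, fun _ => IsHom.id, fun a _ => ?_⟩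
  have : Nontrivial V := by
    obtain ⟨x, hx⟩ := hV.1
    exact ⟨⟨x, 0, hx⟩⟩
  obtain ⟨t, ht⟩ := Module.End.exists_eigenvalue (a : Module.End K V)
  refine ⟨fun _ => t, fun hb => ?_⟩
  obtain ⟨x, hx, hx0⟩ := ht.exists_hasEigenvector
  have h3 := Module.End.mem_eigenspace_iff.1 hx
  apply hx0
  apply hb.1
  rw [map_zero, LinearMap.sub_apply, Fin.sum_univ_one, LinearMap.smul_apply, LinearMap.id_apply,
    h3, sub_self]

section

open Pool.Agent.H914 Pool.Agent.H914.VarClass Pool.Agent.H914.VarClass.Obj
  Pool.Agent.H914.WeilCohomology Pool.Agent.Y133.Half Pool.Agent.X312.FC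
open Pool.Agent.X312.FM (Family Has IsRingFamily IsNondeg dimOn Operators IsCompatible)

variable {k : Type u} [Field k] {𝒱 : VarClass k} {ops : CycleOps 𝒱}
  {W : WeilCohomology.{u, v} ops} {C : Family W} {S : CorrData W} {G : Type v}
  {ι : Type} {V : ι → Type v} [∀ i, AddCommGroup (V i)] [∀ i, Module W.K (V i)]
  [∀ i, FiniteDimensional W.K (V i)] {τ : ∀ i, G → V i → V i}

/-- **The law for several indecomposable representations.** -/
theorem fam_law [IsAlgClosed W.K] [Fintype ι] {ρ : ∀ Z : 𝒱.Obj, G → S.M Z → S.M Z}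
    (hC : IsRingFamily C) (hS : S.IsFunctor C) (hρ : IsNaturalAction C S ρ)
    (hτ : ∀ i g, IsLinearMap W.K (τ i g)) (hV : ∀ i, IsIndecomposable W.K (τ i))
    (hne : AreNonisomorphic W.K τ) {b : ℕ} {d : ι → ℕ} (hb : IsBounded C S b)
    (hd : ∀ i, (d i - 1) * b < finrank W.K (V i)) (X : 𝒱.Obj)
    (hX : ∀ n, IsNondeg C (pw X n)) (m : ℕ) (hm : ∀ i, IsSummandPow W.K (τ i) (ρ (pw X m)) 1)
    (n : ℕ) : ∃ r : ι → ℕ,
      (∀ i, rankBound (d i) (finrank W.K (W.H X)) (dimOn C (pw X n)) m n ≤ r i) ∧
      IsSummandSum W.K τ (ρ (pw X n)) r := by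
  have key : ∀ i, FK.IndepMod
      (hom (τ i) (ρ (pw X n)) (hρ.lin _) : Set (V i →ₗ[W.K] S.M (pw X n)))
      (rad (τ i) (ρ (pw X n)) (hτ i) (hρ.lin _) (hV i))
      (rankBound (d i) (finrank W.K (W.H X)) (dimOn C (pw X n)) m n) := fun i =>
    (indep_law hC hS hρ (hτ i) (hV i) hb (hd i) X hX m).resolve_left (not_not.2 (hm i)) n
  choose R a h1 h2 h3 using key
  exact ⟨R, h1, split_family hτ (hρ.lin _) hV hne (fun i => residue_one (hV i)) a h3 h2
    (fun i => by omega)⟩

end

end Pool.Agent.X312.MR
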