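import Pool.Agent.X312.MR.Defs

/-!
# The residue field of an indecomposable representation
-/

universe v

namespace Pool.Agent.X312.MR

/-- The endomorphisms of `V` (the linear maps which commute with the operators `τ g`) modulo those
which are not bijective have dimension at most `e`: there are `e` endomorphisms such that each
endomorphism is the sum of a linear combination of them and an endomorphism which is not
bijective. -/
def ResidueAtMost (K : Type v) [Field K] {G V : Type v} [AddCommGroup V] [Module K V]
    (τ : G → V → V) (e : ℕ) : Prop :=
  ∃ u : Fin e → (V →ₗ[K] V), (∀ i, IsHom τ τ (u i)) ∧ ∀ a : V →ₗ[K] V, IsHom τ τ a →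
    ∃ t : Fin e → K, ¬ Function.Bijective (a - ∑ i, t i • u i : V →ₗ[K] V)

end Pool.Agent.X312.MR
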