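import Pool.Agent.X312.MR.Law
import Pool.Agent.X312.MR.GenDefs

/-!
# Indecomposable representations over any field
-/

open CategoryTheory AlgebraicGeometry

universe u v

namespace Pool.Agent.X312.MR

open Module

variable {K : Type v} [Field K] {G V M : Type v} [AddCommGroup V] [Module K V]
  [AddCommGroup M] [Module K M]
  {τ : G → V → V} {σ : G → M → M} [FiniteDimensional K V]

/-- **Splitting over any field.** -/
theorem split_gen {e : ℕ} (he : ResidueAtMost K τ e) (hτ : ∀ g, IsLinearMap K (τ g))
    (hσ : ∀ g, IsLinearMap K (σ g)) (hV : IsIndecomposable K τ) {R : ℕ}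
    (a : Fin R → (V →ₗ[K] M)) (ha : ∀ i, IsHom τ σ (a i))
    (hlin : LinearIndependent K (fun i => (rad τ σ hτ hσ hV).mkQ (a i))) :
    ∀ r : ℕ, (r - 1) * e < R ∨ r = 0 → IsSummandPow K τ σ r := by
  classical
  obtain ⟨u, hu, hres⟩ := he
  intro r
  induction r with
  | zero =>
    intro _
    exact ⟨Fin.elim0, Fin.elim0, fun i => i.elim0, fun i => i.elim0, fun i => i.elim0,
      fun i => i.elim0⟩
  | succ r ih =>
    intro hr
    have hr' : r * e < R := by
      rcases hr with h | h
      · simpa using h
      · exact absurd h (Nat.succ_ne_zero r)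
    obtain ⟨f, h, hf, hh, h1, h2⟩ := ih (by
      rcases Nat.eq_zero_or_pos r with h0 | h0
      · exact Or.inr h0
      · left
        exact lt_of_le_of_lt (Nat.mul_le_mul_right e (Nat.sub_le r 1)) hr')
    set N := rad τ σ hτ hσ hV with hN
    -- an element outside the span
    obtain ⟨j, hj⟩ : ∃ j, a j ∉ Submodule.span K
        (Set.range fun q : Fin r × Fin e => f q.1 ∘ₗ u q.2) ⊔ N := by
      by_contra hcon
      push Not at hcon
      have h3 : ∀ j, N.mkQ (a j) ∈ Submodule.span K
          (Set.range fun q : Fin r × Fin e => N.mkQ (f q.1 ∘ₗ u q.2)) := by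
        intro j
        obtain ⟨y, hy, z, hz, hyz⟩ := Submodule.mem_sup.1 (hcon j)
        have h4 : N.mkQ z = 0 := by
          rw [Submodule.mkQ_apply, Submodule.Quotient.mk_eq_zero]; exact hz
        rw [← hyz, map_add, h4, add_zero]
        have h5 : (Set.range fun q : Fin r × Fin e => N.mkQ (f q.1 ∘ₗ u q.2)) =
            N.mkQ '' (Set.range fun q : Fin r × Fin e => f q.1 ∘ₗ u q.2) := by
          rw [← Set.range_comp]; rfl
        rw [h5, ← Submodule.map_span]
        exact ⟨y, hy, rfl⟩
      have hfd : FiniteDimensional K (Submodule.span K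
          (Set.range fun q : Fin r × Fin e => N.mkQ (f q.1 ∘ₗ u q.2))) :=
        FiniteDimensional.span_of_finite K (Set.finite_range _)
      have h5 : LinearIndependent K (fun j => (⟨N.mkQ (a j), h3 j⟩ :
          Submodule.span K
            (Set.range fun q : Fin r × Fin e => N.mkQ (f q.1 ∘ₗ u q.2)))) := by
        refine LinearIndependent.of_comp (Submodule.subtype _) ?_
        exact hlin
      have h6 := h5.fintype_card_le_finrank
      have h7 := finrank_range_le_card (R := K)
        (fun q : Fin r × Fin e => N.mkQ (f q.1 ∘ₗ u q.2))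
      rw [Set.finrank] at h7
      rw [Fintype.card_prod, Fintype.card_fin, Fintype.card_fin] at h7
      rw [Fintype.card_fin] at h6
      omega
    set s := a j with hs
    have hshom : IsHom τ σ s := ha j
    -- residues
    have hres' : ∀ i : Fin r, ∃ t : Fin e → K,
        ¬ Function.Bijective ((h i ∘ₗ s) - ∑ l, t l • u l : V →ₗ[K] V) := fun i =>
      hres _ ((hh i).comp hshom)
    choose t ht using hres'
    set s' : V →ₗ[K] M := s - ∑ i, f i ∘ₗ (h i ∘ₗ s) with hs'
    have hs'hom : IsHom τ σ s' :=
      hshom.sub hσ (IsHom.sum hσ fun i => (hf i).comp ((hh i).comp hshom))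
    have hs'N : s' ∉ N := by
      intro hmem
      apply hj
      have h3 : s = ∑ i, ∑ l, t i l • (f i ∘ₗ u l) +
          (s' + ∑ i, f i ∘ₗ ((h i ∘ₗ s) - ∑ l, t i l • u l)) := by
        have h4 : ∑ i, f i ∘ₗ ((h i ∘ₗ s) - ∑ l, t i l • u l) =
            ∑ i, f i ∘ₗ (h i ∘ₗ s) - ∑ i, ∑ l, t i l • (f i ∘ₗ u l) := by
          rw [← Finset.sum_sub_distrib]
          refine Finset.sum_congr rfl fun i _ => ?_
          rw [LinearMap.comp_sub]
          congr 1
          apply LinearMap.ext
          intro x
          simp [LinearMap.sum_apply, map_sum]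
        rw [h4, hs']
        abel
      rw [h3]
      refine Submodule.add_mem_sup (Submodule.sum_mem _ fun i _ => Submodule.sum_mem _
        fun l _ => Submodule.smul_mem _ _ (Submodule.subset_span ⟨(i, l), rfl⟩))
        (Submodule.add_mem _ hmem (Submodule.sum_mem _ ?_))
      intro i _
      refine ⟨(hf i).comp (((hh i).comp hshom).sub hτ
        (IsHom.sum hτ fun l => (hu l).smul hτ (t i l))), fun w hw hb => ?_⟩
      apply not_bij_inj (ht i)
      have h5 := hb.1
      intro x y hxy
      apply h5
      exact congrArg (fun v => w (f i v)) hxy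
    -- a retraction
    obtain ⟨w, hw, hwb⟩ : ∃ w : M →ₗ[K] V, IsHom σ τ w ∧ Function.Bijective (w ∘ₗ s') := by
      by_contra hcon
      push Not at hcon
      exact hs'N ⟨hs'hom, hcon⟩
    set E := LinearEquiv.ofBijective (w ∘ₗ s') hwb with hE
    set c : V →ₗ[K] V := E.symm.toLinearMap with hc
    have e1 : (w ∘ₗ s') ∘ₗ c = LinearMap.id := by
      apply LinearMap.ext; intro x
      exact E.apply_symm_apply x
    have e2 : c ∘ₗ (w ∘ₗ s') = LinearMap.id := by
      apply LinearMap.ext; intro x
      exact E.symm_apply_apply x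
    have hchom : IsHom τ τ c := (hw.comp hs'hom).symm e1 e2
    set h₀ : M →ₗ[K] V := c ∘ₗ w with hh₀
    have hh₀hom : IsHom σ τ h₀ := hchom.comp hw
    have e3 : ∀ x, h₀ (s' x) = x := fun x => congrArg (fun f : V →ₗ[K] V => f x) e2
    have e4 : ∀ i x, h i (s' x) = 0 := by
      intro i x
      rw [hs', LinearMap.sub_apply, LinearMap.sum_apply, map_sub, map_sum,
        Finset.sum_eq_single i]
      · rw [LinearMap.comp_apply, h1, LinearMap.comp_apply, sub_self]
      · intro k _ hk
        rw [LinearMap.comp_apply, h2 i k _ (Ne.symm hk)]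
      · intro hi; exact absurd (Finset.mem_univ i) hi
    set h' : M →ₗ[K] V := h₀ - ∑ i, (h₀ ∘ₗ f i) ∘ₗ h i with hh'
    have hh'hom : IsHom σ τ h' :=
      hh₀hom.sub hτ (IsHom.sum hτ fun i => (hh₀hom.comp (hf i)).comp (hh i))
    have e5 : ∀ x, h' (s' x) = x := by
      intro x
      rw [hh', LinearMap.sub_apply, LinearMap.sum_apply, e3, Finset.sum_eq_zero, sub_zero]
      intro i _
      rw [LinearMap.comp_apply, e4, map_zero]
    have e6 : ∀ k x, h' (f k x) = 0 := by
      intro k x
      rw [hh', LinearMap.sub_apply, LinearMap.sum_apply, Finset.sum_eq_single k]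
      · have e7 : ((h₀ ∘ₗ f k) ∘ₗ h k) (f k x) = h₀ (f k x) := by
          change h₀ (f k (h k (f k x))) = _
          rw [h1]
        rw [e7, sub_self]
      · intro i _ hi
        rw [LinearMap.comp_apply, h2 i k _ hi, map_zero]
      · intro hi; exact absurd (Finset.mem_univ k) hi
    refine ⟨Fin.cons s' f, Fin.cons h' h, ?_, ?_, ?_, ?_⟩
    · intro i
      refine Fin.cases ?_ (fun i => ?_) i
      · exact hs'hom
      · exact hf i
    · intro i
      refine Fin.cases ?_ (fun i => ?_) i
      · exact hh'hom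
      · exact hh i
    · intro i
      refine Fin.cases ?_ (fun i => ?_) i
      · exact e5
      · exact h1 i
    · intro i k
      refine Fin.cases ?_ (fun i => ?_) i
      · refine Fin.cases ?_ (fun k => ?_) k
        · intro x hx; exact absurd rfl hx
        · intro x _; exact e6 k x
      · refine Fin.cases ?_ (fun k => ?_) k
        · intro x _; exact e4 i x
        · intro x hx
          exact h2 i k x fun h => hx (by rw [h])

section

open Pool.Agent.H914 Pool.Agent.H914.VarClass Pool.Agent.H914.VarClass.Obj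
  Pool.Agent.H914.WeilCohomology Pool.Agent.Y133.Half Pool.Agent.X312.FC
open Pool.Agent.X312.FM (Family Has IsRingFamily IsNondeg dimOn Operators IsCompatible)

variable {k : Type u} [Field k] {𝒱 : VarClass k} {ops : CycleOps 𝒱}
  {W : WeilCohomology.{u, v} ops} {C : Family W} {S : CorrData W}
  {V : Type v} [AddCommGroup V] [Module W.K V] [FiniteDimensional W.K V]
  {G : Type v} {τ : G → V → V}

/-- **The multiplicity law over any field of coefficients.** -/
theorem gen_law {ρ : ∀ Z : 𝒱.Obj, G → S.M Z → S.M Z} (hC : IsRingFamily C)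
    (hS : S.IsFunctor C) (hρ : IsNaturalAction C S ρ) (hτ : ∀ g, IsLinearMap W.K (τ g))
    (hV : IsIndecomposable W.K τ) {e : ℕ} (he : ResidueAtMost W.K τ e) {b d : ℕ}
    (hb : IsBounded C S b) (hd : (d - 1) * b < finrank W.K V) (X : 𝒱.Obj)
    (hX : ∀ n, IsNondeg C (pw X n)) (m : ℕ) :
    ¬ IsSummandPow W.K τ (ρ (pw X m)) 1 ∨
    ∀ n : ℕ, MultAtLeast W.K τ (ρ (pw X n))
      (rankBound d (finrank W.K (W.H X)) (dimOn C (pw X n)) m n / e) := by
  rcases indep_law hC hS hρ hτ hV hb hd X hX m with h | h
  · exact Or.inl h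
  · right
    intro n
    obtain ⟨R, a, h1, h2, h3⟩ := h n
    rcases Nat.eq_zero_or_pos e with he0 | he0
    · refine ⟨0, ?_, split_gen he hτ (hρ.lin _) hV a h3 h2 0 (Or.inr rfl)⟩
      rw [he0, Nat.cast_zero, div_zero]
    refine ⟨(R + e - 1) / e, ?_, split_gen he hτ (hρ.lin _) hV a h3 h2 _ ?_⟩
    · rw [div_le_iff₀ (by exact_mod_cast he0)]
      refine h1.trans ?_
      have h4 : R ≤ (R + e - 1) / e * e := by
        have h5 := Nat.div_add_mod (R + e - 1) e
        have h6 := Nat.mod_lt (R + e - 1) he0
        rw [mul_comm] at h5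
        omega
      exact_mod_cast h4
    · rcases Nat.eq_zero_or_pos R with hR | hR
      · right
        rw [hR, zero_add]
        exact Nat.div_eq_of_lt (by omega)
      · left
        have h5 := Nat.div_mul_le_self (R + e - 1) e
        rw [Nat.sub_mul, one_mul]
        omega

end

end Pool.Agent.X312.MR
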