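import Pool.Agent.X312.MR.Defs

/-!
# Direct summands of the image of an idempotent
-/

universe v

namespace Pool.Agent.X312.MR

/-- `V` is a direct summand of `M` also after applying the map `p : M → M` (an idempotent which commutes
with the operators): `V` is a direct summand of the image of `p`. -/
def IsSummandOf (K : Type v) [Field K] {G V M : Type v} [AddCommGroup V] [Module K V]
    [AddCommGroup M] [Module K M] (τ : G → V → V) (σ : G → M → M) (p : M → M) : Prop :=
  ∃ (f : V →ₗ[K] M) (h : M →ₗ[K] V), IsHom τ σ f ∧ IsHom σ τ h ∧ ∀ x, h (p (f x)) = x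

end Pool.Agent.X312.MR
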