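import Pool.Agent.X312.MR.Fam
import Pool.Agent.X312.MR.Coh
import Pool.Agent.X312.MR.PrimDefs
import Pool.Agent.X312.FC.PrimLaw

/-!
# Multiplicities: irreducible motives
-/

open CategoryTheory AlgebraicGeometry

universe u v

namespace Pool.Agent.X312.MR

open Module
open Pool.Agent.H914 Pool.Agent.H914.VarClass Pool.Agent.H914.VarClass.Obj
  Pool.Agent.H914.WeilCohomology Pool.Agent.Y133.Half Pool.Agent.X312.FC
open Pool.Agent.X312.FM (Family Has IsRingFamily IsNondeg dimOn Operators IsCompatible)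
open Pool.Agent.X312.FK (composite IrreducibleIn)

variable {k : Type u} [Field k] {𝒱 : VarClass k} {ops : CycleOps 𝒱}
  {W : WeilCohomology.{u, v} ops} {C : Family W} {S : CorrData W} {G : Type v}

/-- The law for homomorphisms modulo the homomorphisms which are not split, for an irreducible
motive. -/
theorem indep_prim {V : Type v} [AddCommGroup V] [Module W.K V] [FiniteDimensional W.K V]
    {τ : G → V → V} {ρ : ∀ Z : 𝒱.Obj, G → S.M Z → S.M Z} (hC : IsRingFamily C)
    (hS : S.IsFunctor C) (hρ : IsNaturalAction C S ρ) (hτ : ∀ g, IsLinearMap W.K (τ g))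
    (hV : IsIndecomposable W.K τ) (X : 𝒱.Obj) (hX : ∀ n, IsNondeg C (pw X n)) {m : ℕ}
    {e : W.H ((pw X m).prod (pw X m))} (he : Has C e) (hee : composite W e e = e)
    (hirr : IrreducibleIn (Has C) e) (hm : IsSummandOf W.K τ (ρ (pw X m)) (S.act e)) (n : ℕ) :
    FK.IndepMod (hom τ (ρ (pw X n)) (hρ.lin _) : Set (V →ₗ[W.K] S.M (pw X n)))
      (rad τ (ρ (pw X n)) hτ (hρ.lin _) hV)
      (rankBound (corrRank e) (finrank W.K (W.H X)) (dimOn C (pw X n)) m n) := by
  have hT := homData_isFunctor (V := V) hS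
  have hN : StableC C (homData S hS.toIsLinear V) (fun Z => hom τ (ρ Z) (hρ.lin Z)) := by
    intro Z Z' c hc f hf g x
    change S.act c (tl f (τ g x)) = ρ Z' g (S.act c (tl f x))
    have h1 : tl f (τ g x) = ρ Z g (tl f x) := hf g x
    rw [h1, hρ.comm c hc]
  have hN' : StableC C (homData S hS.toIsLinear V)
      (fun Z => rad τ (ρ Z) hτ (hρ.lin Z) hV) := by
    intro Z Z' c hc f hf
    refine ⟨fun g x => hN Z Z' c hc f hf.1 g x, fun h hh hbij => ?_⟩
    refine hf.2 (h ∘ₗ actL hS c) (fun g x => ?_) hbij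
    change h (S.act c (ρ Z g x)) = τ g (h (S.act c x))
    rw [hρ.comm c hc, hh]
  refine (irr_fun_law hC hT hN' hN X hX he hee hirr).resolve_left ?_ n
  intro h
  obtain ⟨f, w, hf, hw, hwf⟩ := hm
  have h1 := h f hf
  refine h1.2 w hw ?_
  have h2 : w ∘ₗ (homData S hS.toIsLinear V).act e f = LinearMap.id := LinearMap.ext hwf
  rw [h2]
  exact Function.bijective_id

/-- **The law for several indecomposable representations and irreducible motives.** -/
theorem fam_prim [IsAlgClosed W.K] {ι : Type} [Fintype ι] {V : ι → Type v}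
    [∀ i, AddCommGroup (V i)] [∀ i, Module W.K (V i)] [∀ i, FiniteDimensional W.K (V i)]
    {τ : ∀ i, G → V i → V i} {ρ : ∀ Z : 𝒱.Obj, G → S.M Z → S.M Z}
    (hC : IsRingFamily C) (hS : S.IsFunctor C) (hρ : IsNaturalAction C S ρ)
    (hτ : ∀ i g, IsLinearMap W.K (τ i g)) (hV : ∀ i, IsIndecomposable W.K (τ i))
    (hne : AreNonisomorphic W.K τ) (X : 𝒱.Obj)
    (hX : ∀ n, IsNondeg C (pw X n)) (m : ℕ) (e : ι → W.H ((pw X m).prod (pw X m)))
    (he : ∀ i, Has C (e i)) (hee : ∀ i, composite W (e i) (e i) = e i)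
    (hirr : ∀ i, IrreducibleIn (Has C) (e i))
    (hm : ∀ i, IsSummandOf W.K (τ i) (ρ (pw X m)) (S.act (e i)))
    (n : ℕ) : ∃ r : ι → ℕ,
      (∀ i, rankBound (corrRank (e i)) (finrank W.K (W.H X)) (dimOn C (pw X n)) m n ≤ r i) ∧
      IsSummandSum W.K τ (ρ (pw X n)) r := by
  have key := fun i => indep_prim hC hS hρ (hτ i) (hV i) X hX (he i) (hee i) (hirr i) (hm i) n
  choose R a h1 h2 h3 using key
  exact ⟨R, h1, split_family hτ (hρ.lin _) hV hne (fun i => residue_one (hV i)) a h3 h2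
    (fun i => by omega)⟩

/-- **The law for one indecomposable representation in the cohomology and an irreducible
motive.** -/
theorem coh_prim [IsAlgClosed W.K] {V : Type v} [AddCommGroup V] [Module W.K V]
    [FiniteDimensional W.K V] {τ : G → V → V} {ρ : Operators W G} (hC : IsRingFamily C)
    (hρ : IsCompatible C ρ) (hτ : ∀ g, IsLinearMap W.K (τ g))
    (hV : IsIndecomposable W.K τ) (X : 𝒱.Obj) (hX : ∀ n, IsNondeg C (pw X n)) {m : ℕ}
    {e : W.H ((pw X m).prod (pw X m))} (he : Has C e) (hee : composite W e e = e)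
    (hirr : IrreducibleIn (Has C) e)
    (hm : IsSummandOf W.K τ (ρ (pw X m)) (fun x => W.corr e x)) (n : ℕ) :
    MultAtLeast W.K τ (ρ (pw X n))
      (rankBound (corrRank e) (finrank W.K (W.H X)) (dimOn C (pw X n)) m n) := by
  obtain ⟨R, a, h1, h2, h3⟩ := indep_prim (S := hData W) hC (hData_isFunctor hC)
    (hData_natural hC hρ) hτ hV X hX he hee hirr hm n
  exact ⟨R, h1, split_of_indep hτ (hρ.lin _) hV a h3 h2 R le_rfl⟩

end Pool.Agent.X312.MR
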